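import Mathlib
import Pool.Agent.Q263.JM.Fin

/-!
# Almost all multiples of algebraic irrational numbers are normal up to `A log M` places

Let `x` be a real algebraic irrational number, or a vector of algebraic numbers which are linearly
independent together with `1`. In every interval of length `M` all multiples `m x`, apart from
`M ^ (1 - c)` of them, have (joint) digits in all bases `b ≤ B` with the right frequencies of all
words in all windows of the first `A log M` places, for every `A`. This also holds uniformly for the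
products with the quotients of numbers up to `M ^ c`, with all numbers up to `M ^ A` composed of small
primes, and after adding any `M ^ c` numbers. Consequently almost all integers of a real number field
are normal up to an arbitrary multiple of the logarithm of their coordinates.

Proof. By the `p`-adic subspace theorem the points `b ^ u t m x` modulo `1`, `m < M`, are separated
by `M ^ (-1/n - δ)` for all `u ≤ A log M`; so few of them have the same block of `λ log M` digits
after the place `u`, while the blocks of this length with a wrong frequency of a word are rare.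
-/

set_option autoImplicit false

namespace Pool.Agent.Results.MP_f2f914_nt.AlmostAllMultiples

/-- the word of the `k` digits in base `b` of `y` which follow the first `n` digits after the point,
read as an integer between `0` and `b ^ k - 1` -/
noncomputable def word (b k n : ℕ) (y : ℝ) : ℕ :=
  ⌊(b : ℝ) ^ k * Int.fract ((b : ℝ) ^ n * y)⌋₊

/-- In every base `2 ≤ b ≤ B` and for all words `j l < b ^ k` of `k ≤ w` digits, one for each of the
`n` coordinates of `z`, the number of the places `s, …, s + N - 1` at which the word `j l` stands in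
`z l` for all `l` differs from `N / b ^ (k n)` by at most `E`, for every window with `s + N ≤ D`. -/
def NormalUpTo {n : ℕ} (B w : ℕ) (D E : ℝ) (z : Fin n → ℝ) : Prop :=
  ∀ (b k s N : ℕ) (j : Fin n → ℕ), 2 ≤ b → b ≤ B → 1 ≤ k → k ≤ w → (∀ l, j l < b ^ k) →
    (s : ℝ) + N ≤ D →
    |(({i : ℕ | i < N ∧ ∀ l, word b k (s + i) (z l) = j l}.ncard : ℕ) : ℝ) -
      N / (b : ℝ) ^ (k * n)| ≤ E

lemma normal_of {n : ℕ} {B w : ℕ} {D E : ℝ} {z : Fin n → ℝ}
    (h : Pool.Agent.Q263.JM.Nrm B w D E z) : NormalUpTo B w D E z := by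
  classical
  intro b k s N j hb hbB hk hkw hj hsN
  have h1 := h b k s N j hb hbB hk hkw hj hsN
  have h2 : {i : ℕ | i < N ∧ ∀ l, word b k (s + i) (z l) = j l} =
      (((Finset.range N).filter
        (fun i => ∀ l, Pool.Agent.Q263.JM.wd b k (s + i) (z l) = j l) : Finset ℕ) : Set ℕ) := by
    ext i
    simp only [Set.mem_ofPred_eq, Finset.coe_filter, Finset.mem_range]
    rfl
  rw [h2, Set.ncard_coe_finset, pow_mul]
  exact h1

lemma int_indep {n : ℕ} (x : Fin n → ℝ)
    (h : LinearIndependent ℚ (Fin.cons 1 x : Fin (n + 1) → ℝ)) (c0 : ℤ) (c : Fin n → ℤ)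
    (hc : (c0 : ℝ) + ∑ i, (c i : ℝ) * x i = 0) : c0 = 0 ∧ c = 0 := by
  rw [Fintype.linearIndependent_iff] at h
  have h1 := h (Fin.cons (c0 : ℚ) (fun i => (c i : ℚ))) (by
    rw [Fin.sum_univ_succ]
    simp only [Fin.cons_zero, Fin.cons_succ, Rat.smul_def]
    push_cast
    rw [mul_one]
    exact hc)
  constructor
  · have h2 := h1 0
    simp only [Fin.cons_zero] at h2
    exact_mod_cast h2
  · funext i
    have h2 := h1 i.succ
    simp only [Fin.cons_succ] at h2
    rw [Pi.zero_apply]
    exact_mod_cast h2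

open Classical in
/-- (1) Let `x_1, …, x_n` be real algebraic numbers such that `1, x_1, …, x_n` are linearly
independent over `ℚ` (for `n = 1`: `x_1` is irrational), and let `B`, `w`, `A` and `ε > 0` be given.
There are `c > 0` and `M₀` such that for all `M ≥ M₀`, all integers `u` and all sets `Y` of at most
`M ^ c` points, all integers `m` with `u ≤ m < u + M`, except for at most `M ^ (1 - c)` of them, have
the property: for all `y ∈ Y`, all positive integers `a, q ≤ M ^ c` and all positive integers
`t ≤ M ^ A` without prime factors greater than `B`, the vector `y + (a t / q) m x` satisfies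
`NormalUpTo B w (A log M) (ε log M)`.
(2) Let `ω_1, …, ω_d` be real algebraic numbers, not all rational. There are `c > 0` and `M₀` such
that for all `M ≥ M₀`, all `u` in `ℤ^d` and all sets `Y` of at most `M ^ c` real numbers, all vectors
`v` in `ℤ^d` with `u_i ≤ v_i < u_i + M`, except for at most `M ^ (d - c)` of them, have the property:
for all `y ∈ Y` and all `a, q, t` as in (1) the number `y + (a t / q) (v_1 ω_1 + ⋯ + v_d ω_d)`
satisfies `NormalUpTo B w (A log M) (ε log M)`. -/
theorem result :
    (∀ (n : ℕ) (x : Fin n → ℝ), 1 ≤ n → (∀ i, IsAlgebraic ℚ (x i)) →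
      LinearIndependent ℚ (Fin.cons 1 x : Fin (n + 1) → ℝ) →
      ∀ (B w : ℕ) (A ε : ℝ), 0 < ε → ∃ c : ℝ, 0 < c ∧ ∃ M₀ : ℕ, ∀ M : ℕ, M₀ ≤ M →
        ∀ (u : ℤ) (Y : Finset (Fin n → ℝ)), (Y.card : ℝ) ≤ (M : ℝ) ^ c →
        (({m : ℤ | u ≤ m ∧ m < u + M ∧ ¬ ∀ y ∈ Y, ∀ a q t : ℕ, 1 ≤ a → 1 ≤ q → 1 ≤ t →
          (a : ℝ) ≤ (M : ℝ) ^ c → (q : ℝ) ≤ (M : ℝ) ^ c → (t : ℝ) ≤ (M : ℝ) ^ A →
          (∀ p : ℕ, p.Prime → p ∣ t → p ≤ B) →
          NormalUpTo B w (A * Real.log M) (ε * Real.log M)
            (fun l => y l + (a : ℝ) * t / q * m * x l)}.ncard : ℕ) : ℝ) ≤ (M : ℝ) ^ (1 - c)) ∧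
    (∀ (d : ℕ) (ω : Fin d → ℝ), (∀ i, IsAlgebraic ℚ (ω i)) → (∃ i, Irrational (ω i)) →
      ∀ (B w : ℕ) (A ε : ℝ), 0 < ε → ∃ c : ℝ, 0 < c ∧ ∃ M₀ : ℕ, ∀ M : ℕ, M₀ ≤ M →
        ∀ (u : Fin d → ℤ) (Y : Finset ℝ), (Y.card : ℝ) ≤ (M : ℝ) ^ c →
        (({v : Fin d → ℤ | (∀ i, u i ≤ v i ∧ v i < u i + M) ∧
          ¬ ∀ y ∈ Y, ∀ a q t : ℕ, 1 ≤ a → 1 ≤ q → 1 ≤ t →
          (a : ℝ) ≤ (M : ℝ) ^ c → (q : ℝ) ≤ (M : ℝ) ^ c → (t : ℝ) ≤ (M : ℝ) ^ A →
          (∀ p : ℕ, p.Prime → p ∣ t → p ≤ B) →
          NormalUpTo B w (A * Real.log M) (ε * Real.log M)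
            (fun _ : Fin 1 => y + (a : ℝ) * t / q * ∑ i, (v i : ℝ) * ω i)}.ncard : ℕ) : ℝ) ≤
          (M : ℝ) ^ ((d : ℝ) - c)) := by
  refine ⟨?_, ?_⟩
  · intro n x hn halg hlin B w A ε hε
    obtain ⟨c, hc0, hc1, M0, hM0⟩ := Pool.Agent.Q263.JM.main hn x halg (int_indep x hlin) B w A ε hε
    refine ⟨c, hc0, M0, fun M hM u Y hY => ?_⟩
    refine le_trans (Nat.cast_le.2 ?_) (hM0 M hM (Fin n → ℝ) Y
      (fun y a q t l => y l + (a : ℝ) * t / q * u * x l) hY)
    refine le_trans (Set.ncard_le_ncard ?_ ((Finset.finite_toSet _).image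
      (fun m : ℕ => u + (m : ℤ)))) ((Set.ncard_image_le (Finset.finite_toSet _)).trans
        (Set.ncard_coe_finset _).le)
    rintro m ⟨h1, h2, h3⟩
    obtain ⟨m', rfl⟩ : ∃ m' : ℕ, m = u + m' := ⟨(m - u).toNat, by omega⟩
    refine ⟨m', ?_, rfl⟩
    rw [Finset.mem_coe, Finset.mem_filter, Finset.mem_range]
    refine ⟨by omega, fun h4 => h3 fun y hy a q t ha hq ht ha' hq' ht' htp => ?_⟩
    have h5 := normal_of (h4 y hy a q t ha ha' hq hq' ht ht' htp)
    have e1 : (fun l => y l + (a : ℝ) * t / q * ((u + (m' : ℤ) : ℤ) : ℝ) * x l) =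
        fun l => (y l + (a : ℝ) * t / q * u * x l) + (a : ℝ) * t * m' / q * x l := by
      funext l
      push_cast
      ring
    rw [e1]
    exact h5
  · intro d ω halg hirr B w A ε hε
    obtain ⟨i0, hi0⟩ := hirr
    obtain ⟨c, hc0, hc1, M0, hM0⟩ := Pool.Agent.Q263.JM.main (le_refl 1) (fun _ : Fin 1 => ω i0)
      (fun _ => halg i0) (by
        intro c0 c hc
        rw [Fin.sum_univ_one] at hc
        have h1 : c 0 = 0 := by
          by_contra hne
          have hne' : (c 0 : ℝ) ≠ 0 := by exact_mod_cast hne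
          apply hi0
          refine ⟨-(c0 : ℚ) / (c 0 : ℚ), ?_⟩
          push_cast
          rw [div_eq_iff hne']
          linarith
        have h2 : c0 = 0 := by
          rw [h1] at hc
          simpa using hc
        refine ⟨h2, ?_⟩
        funext i
        rw [Subsingleton.elim i 0, h1]
        rfl) B w A ε hε
    have hd : 1 ≤ d := by
      have := i0.2
      omega
    refine ⟨c, hc0, max M0 1, fun M hM u Y hY => ?_⟩
    have hM1 : 1 ≤ M := (le_max_right _ _).trans hM
    have hMR : (0 : ℝ) < M := by exact_mod_cast hM1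
    set P : (Fin d → ℤ) → Prop := fun v => ¬ ∀ y ∈ Y, ∀ a q t : ℕ, 1 ≤ a → 1 ≤ q → 1 ≤ t →
          (a : ℝ) ≤ (M : ℝ) ^ c → (q : ℝ) ≤ (M : ℝ) ^ c → (t : ℝ) ≤ (M : ℝ) ^ A →
          (∀ p : ℕ, p.Prime → p ∣ t → p ≤ B) →
          NormalUpTo B w (A * Real.log M) (ε * Real.log M)
            (fun _ : Fin 1 => y + (a : ℝ) * t / q * ∑ i, (v i : ℝ) * ω i) with hP
    set S : Finset (Fin d → ℤ) := (Fintype.piFinset (fun i => Finset.Ico (u i) (u i + M))).filter
      P with hS
    have hset : {v : Fin d → ℤ | (∀ i, u i ≤ v i ∧ v i < u i + M) ∧ P v} =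
        ((S : Finset (Fin d → ℤ)) : Set (Fin d → ℤ)) := by
      ext v
      rw [hS, Finset.coe_filter]
      simp only [Set.mem_ofPred_eq, Fintype.mem_piFinset, Finset.mem_Ico]
    have hset2 : (({v : Fin d → ℤ | (∀ i, u i ≤ v i ∧ v i < u i + M) ∧ P v}.ncard : ℕ) : ℝ) =
        (S.card : ℝ) := by
      rw [hset, Set.ncard_coe_finset]
    refine le_trans (le_of_eq hset2) ?_
    -- fibres
    set f : (Fin d → ℤ) → (Fin d → ℤ) := fun v => Function.update v i0 (u i0) with hf
    have hfib : ∀ W ∈ S.image f, ((S.filter (fun v => f v = W)).card : ℝ) ≤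
        (M : ℝ) ^ (1 - c) := by
      intro W hW
      have hWi : W i0 = u i0 := by
        rw [Finset.mem_image] at hW
        obtain ⟨v, -, rfl⟩ := hW
        simp [hf]
      refine le_trans (Nat.cast_le.2 ?_) (hM0 M ((le_max_left _ _).trans hM) ℝ Y
        (fun y a q t _ => y + (a : ℝ) * t / q * ∑ i, (W i : ℝ) * ω i) hY)
      refine Finset.card_le_card_of_injOn (fun v => (v i0 - u i0).toNat) ?_ ?_
      · intro v hv
        rw [Finset.mem_coe, Finset.mem_filter, hS, Finset.mem_filter, Fintype.mem_piFinset] at hv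
        obtain ⟨⟨hv1, hv2⟩, hv3⟩ := hv
        have hv4 := Finset.mem_Ico.1 (hv1 i0)
        obtain ⟨m', hm'⟩ : ∃ m' : ℕ, v i0 = u i0 + m' := ⟨(v i0 - u i0).toNat, by omega⟩
        rw [Finset.mem_coe, Finset.mem_filter, Finset.mem_range]
        have e0 : (v i0 - u i0).toNat = m' := by omega
        beta_reduce
        rw [e0]
        refine ⟨by omega, fun h4 => hv2 fun y hy a q t ha hq ht ha' hq' ht' htp => ?_⟩
        have h5 := normal_of (h4 y hy a q t ha ha' hq hq' ht ht' htp)
        have e2 : ∑ i, (v i : ℝ) * ω i = ∑ i, (W i : ℝ) * ω i + m' * ω i0 := by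
          have e3 : ∀ i, (v i : ℝ) * ω i = (W i : ℝ) * ω i + (if i = i0 then m' * ω i0 else 0) := by
            intro i
            by_cases hi : i = i0
            · subst hi
              rw [if_pos rfl, hWi, hm']
              push_cast
              ring
            · rw [if_neg hi, ← hv3]
              simp only [hf]
              rw [Function.update_of_ne hi]
              ring
          rw [Finset.sum_congr rfl fun i _ => e3 i, Finset.sum_add_distrib]
          congr 1
          rw [Finset.sum_ite_eq' Finset.univ i0]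
          simp
        have e1 : (fun _ : Fin 1 => y + (a : ℝ) * t / q * ∑ i, (v i : ℝ) * ω i) =
            fun _ : Fin 1 => (y + (a : ℝ) * t / q * ∑ i, (W i : ℝ) * ω i) +
              (a : ℝ) * t * m' / q * ω i0 := by
          funext l
          rw [e2]
          ring
        rw [e1]
        exact h5
      · intro v hv v' hv' heq
        rw [Finset.mem_coe, Finset.mem_filter, hS, Finset.mem_filter, Fintype.mem_piFinset]
          at hv hv'
        have hv4 := Finset.mem_Ico.1 (hv.1.1 i0)
        have hv4' := Finset.mem_Ico.1 (hv'.1.1 i0)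
        simp only at heq
        funext i
        by_cases hi : i = i0
        · subst hi
          omega
        · have h6 : f v i = f v' i := by rw [hv.2, hv'.2]
          simp only [hf] at h6
          rwa [Function.update_of_ne hi, Function.update_of_ne hi] at h6
    have himg : ((S.image f).card : ℝ) ≤ (M : ℝ) ^ (d - 1 : ℕ) := by
      have h1 : S.image f ⊆ Fintype.piFinset
          (fun i => if i = i0 then {u i0} else Finset.Ico (u i) (u i + M)) := by
        intro W hW
        rw [Finset.mem_image] at hW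
        obtain ⟨v, hv, rfl⟩ := hW
        rw [hS, Finset.mem_filter, Fintype.mem_piFinset] at hv
        rw [Fintype.mem_piFinset]
        intro i
        by_cases hi : i = i0
        · subst hi
          simp [hf]
        · rw [if_neg hi]
          simp only [hf]
          rw [Function.update_of_ne hi]
          exact hv.1 i
      have h2 := Finset.card_le_card h1
      rw [Fintype.card_piFinset] at h2
      have h3 : ∏ i, (if i = i0 then {u i0} else Finset.Ico (u i) (u i + (M : ℤ))).card =
          M ^ (d - 1) := by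
        have e1 : ∀ i, (if i = i0 then {u i0} else Finset.Ico (u i) (u i + (M : ℤ))).card =
            if i = i0 then 1 else M := by
          intro i
          split_ifs with hi
          · rfl
          · rw [Int.card_Ico]
            omega
        rw [Finset.prod_congr rfl fun i _ => e1 i, Finset.prod_ite, Finset.prod_const_one, one_mul,
          Finset.prod_const, Finset.filter_ne' Finset.univ i0,
          Finset.card_erase_of_mem (Finset.mem_univ _), Finset.card_univ, Fintype.card_fin]
      rw [h3] at h2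
      exact_mod_cast h2
    have hsum : (S.card : ℝ) ≤ (S.image f).card * (M : ℝ) ^ (1 - c) := by
      rw [Finset.card_eq_sum_card_image f S]
      push_cast
      calc ∑ W ∈ S.image f, (((S.filter (fun m => f m = W)).card : ℕ) : ℝ)
          ≤ ∑ _W ∈ S.image f, (M : ℝ) ^ (1 - c) := Finset.sum_le_sum hfib
        _ = _ := by rw [Finset.sum_const, nsmul_eq_mul]
    calc (S.card : ℝ) ≤ (S.image f).card * (M : ℝ) ^ (1 - c) := hsum
      _ ≤ (M : ℝ) ^ (d - 1 : ℕ) * (M : ℝ) ^ (1 - c) :=
          mul_le_mul_of_nonneg_right himg (by positivity)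
      _ = (M : ℝ) ^ ((d : ℝ) - c) := by
          rw [← Real.rpow_natCast (M : ℝ) (d - 1), ← Real.rpow_add hMR, Nat.cast_sub hd]
          congr 1
          push_cast
          ring

end Pool.Agent.Results.MP_f2f914_nt.AlmostAllMultiples
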