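import Pool.Agent.Q270.AF.Ta

/-!
# Typical real algebraic numbers are normal far beyond their height

An algebraic number is given by the `d + 1` coefficients of its polynomial, so for a typical real
algebraic number of height `H` the first `A log H` digits can be controlled with elementary
exponential sums, and this is what all earlier results on almost all algebraic numbers do. Here it is
proved that typical algebraic numbers are normal far beyond: up to the place `(log H) ^ (1 + δ)`
(that is for the powers `b ^ j ≤ exp ((log H) ^ (1 + δ))`), with the discrepancy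
`√n (log H) ^ ε` of random numbers in every window of `n` places, in all bases
`b ≤ exp ((log H) ^ κ)` at once, for all degrees `d ≤ (log H) ^ κ`, and not only for the root `x`,
but for all the elements `g(x)` of the field `ℚ(x)` at once whose height (in the basis
`1, x, …, x ^ (d - 1)`) is at most `exp ((log H) ^ κ)`. The proportion of the exceptional
polynomials is at most `exp (-(log H) ^ κ)`.

Proof. Fix all the coefficients of the polynomial but the constant one: the roots are the values
`x(n)` of the inverse function of a polynomial `q` at the integers `n ≤ 2 H + 1`. The derivatives of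
`ψ = g(x(y))` are `S_j(x) / q'(x) ^ (2 j + 1)` with explicit polynomials `S_j`, whose leading
coefficients and norms are computed; so off a small set of points the derivatives of the orders
needed are neither too large nor too small, and Vinogradov's method, in an explicit form uniform in
the number of the derivatives, gives `∑ e(B ψ(n)) ≤ H exp (-(log H) ^ c)` up to
`B ≤ exp ((log H) ^ (1 + δ'))`. Moments of growing order of the counts of the digits, compared with
those of independent digits, then give the discrepancy outside a set of the proportion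
`exp (-(log H) ^ κ')`, which is small enough for the union over all bases `b` and all functions `g`.
-/

set_option autoImplicit false

namespace Pool.Agent.Results.MP_f2f914_nt.BeyondTheHeight

open Polynomial Filter Topology

/-- the number of the places `j` with `s ≤ j < s + n` for which the fractional part of `b ^ j x` is
in `[u, v)` -/
noncomputable def cnt (x : ℝ) (b s n : ℕ) (u v : ℝ) : ℕ :=
  ((Finset.Ico s (s + n)).filter (fun j =>
    u ≤ Int.fract ((b : ℝ) ^ j * x) ∧ Int.fract ((b : ℝ) ^ j * x) < v)).card

/-- **Typical real algebraic numbers of all degrees are normal far beyond their height.** -/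
theorem result : ∃ δ : ℝ, 0 < δ ∧ ∀ ε : ℝ, 0 < ε → ∃ κ : ℝ, 0 < κ ∧ ∀ᶠ H : ℕ in atTop,
    ∀ d : ℕ, 2 ≤ d → (d : ℝ) ≤ (Real.log H) ^ κ →
      ∃ E : Finset (Fin (d + 1) → ℤ),
        (E.card : ℝ) ≤ (2 * (H : ℝ) + 1) ^ (d + 1) * Real.exp (-(Real.log H) ^ κ) ∧
        ∀ a : Fin (d + 1) → ℤ, (∀ i, |a i| ≤ H) → a ∉ E →
        ∀ x : ℝ, ∑ i, (a i : ℝ) * x ^ (i : ℕ) = 0 →
        ∀ g : ℚ[X], 1 ≤ g.natDegree → g.natDegree < d →
          (∀ i, |((g.coeff i).num : ℝ)| ≤ Real.exp ((Real.log H) ^ κ) ∧
            ((g.coeff i).den : ℝ) ≤ Real.exp ((Real.log H) ^ κ)) →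
        ∀ b : ℕ, 2 ≤ b → (b : ℝ) ≤ Real.exp ((Real.log H) ^ κ) →
        ∀ s n : ℕ, (b : ℝ) ^ (s + n) ≤ Real.exp ((Real.log H) ^ (1 + δ)) →
        ∀ u v : ℝ, 0 ≤ u → u ≤ v → v ≤ 1 →
          |(cnt (aeval x g) b s n u v : ℝ) - n * (v - u)| ≤ √(n : ℝ) * (Real.log H) ^ ε :=
  Pool.Agent.Q270.AF.typical

end Pool.Agent.Results.MP_f2f914_nt.BeyondTheHeight
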