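import Mathlib
import Pool.Agent.Q217.TE.Grammar

/-!
# The digits of algebraic irrational numbers have full rank with respect to the leading digits
-/

set_option autoImplicit false

namespace Pool.Agent.Results.MP_f2f914_nt.DigitRank

open Finset Pool.Agent.Q217.TE

/-- Let `ξ` be a real algebraic irrational number and `ξ = ∑ c_n b^(-n)` with integers `c_n`,
`|c_n| ≤ B` for `n ≥ 1` (for instance the base-`b` digits), and let `k ≥ 2`.

(1) If at every scale `J` with `√N ≤ k^J ≤ N k^(-p)` the sequence `g` has rank smaller than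
`k^p - k^(p-1)`, the number of the possible blocks of `p` leading base-`k` digits, in the sense of
`OneScale`, then `g n ≠ c n` for at least `A log N` of the integers `n ≤ N`, for every `A` and
`N ≥ N₀(A)`; here `N₀` depends neither on `g` nor on the expansion.

(2) The same holds for every sequence `g` computed by read-once programs of bounded width which
read the digits of `n` in any order such that the leading digits come early.

(3) The same holds for every sequence `g` computed by a weighted linear grammar (an automaton that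
reads the digits of `n` from both ends). -/
theorem result (b : ℕ) (hb : 2 ≤ b) (ξ : ℝ) (hξ : IsAlgebraic ℚ ξ) (hirr : Irrational ξ)
    (B k : ℕ) (hk : 2 ≤ k) (A : ℕ) :
    (∀ p q R : ℕ, R < k ^ p - k ^ (p - 1) → ∃ N₀ : ℕ, ∀ c : ℕ → ℤ, (∀ n, 1 ≤ n → |c n| ≤ B) →
      HasSum (fun n : ℕ => (c n : ℝ) / (b : ℝ) ^ n) ξ → ∀ N ≥ N₀, ∀ g : ℕ → ℝ,
        (∀ J, k ^ (p + J) ≤ N → N ≤ (k ^ J) ^ 2 → OneScale k p q R J g) →
        A * Real.log N ≤ (((Icc 1 N).filter (fun n => (c n : ℝ) ≠ g n)).card : ℝ)) ∧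
    (∀ g : ℕ → ℝ, ReadOnce k g → ∃ N₀ : ℕ, ∀ c : ℕ → ℤ, (∀ n, 1 ≤ n → |c n| ≤ B) →
      HasSum (fun n : ℕ => (c n : ℝ) / (b : ℝ) ^ n) ξ → ∀ N ≥ N₀,
        A * Real.log N ≤ (((Icc 1 N).filter (fun n => (c n : ℝ) ≠ g n)).card : ℝ)) ∧
    (∀ g : ℕ → ℝ, TwoEnded k g → ∃ N₀ : ℕ, ∀ c : ℕ → ℤ, (∀ n, 1 ≤ n → |c n| ≤ B) →
      HasSum (fun n : ℕ => (c n : ℝ) / (b : ℝ) ^ n) ξ → ∀ N ≥ N₀,
        A * Real.log N ≤ (((Icc 1 N).filter (fun n => (c n : ℝ) ≠ g n)).card : ℝ)) := by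
  have hmain := fun p q R => main b hb ξ hξ hirr B k p q R A hk
  have key : ∀ g : ℕ → ℝ, (∃ p q R L₁ : ℕ, R < k ^ p - k ^ (p - 1) ∧
      ∀ J ≥ L₁, OneScale k p q R J g) → ∃ N₀ : ℕ, ∀ c : ℕ → ℤ, (∀ n, 1 ≤ n → |c n| ≤ B) →
      HasSum (fun n : ℕ => (c n : ℝ) / (b : ℝ) ^ n) ξ → ∀ N ≥ N₀,
        A * Real.log N ≤ (((Icc 1 N).filter (fun n => (c n : ℝ) ≠ g n)).card : ℝ) := by
    rintro g ⟨p, q, R, L₁, hR, h⟩
    obtain ⟨N₀, hN₀⟩ := hmain p q R hR
    refine ⟨max N₀ ((k ^ L₁) ^ 2 + 1), fun c hc hs N hN => ?_⟩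
    refine hN₀ c hc hs N (le_trans (le_max_left _ _) hN) g (fun J _ hJ2 => h J ?_)
    by_contra hlt
    push Not at hlt
    have h1 : (k ^ J) ^ 2 ≤ (k ^ L₁) ^ 2 :=
      Nat.pow_le_pow_left (Nat.pow_le_pow_right (by omega) hlt.le) _
    have h2 := le_trans (le_max_right N₀ _) hN
    omega
  exact ⟨hmain, fun g hg => key g (readOnce k hk g hg), fun g hg => key g (twoEnded k hk g hg)⟩

end Pool.Agent.Results.MP_f2f914_nt.DigitRank
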