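import Pool.Agent.Q163.LZ.Auto

/-!
# MP_f2f914_nt: the digits of algebraic numbers are far from words with short descriptions
-/

set_option autoImplicit false

namespace Pool.Agent.Results.MP_f2f914_nt.IncompressibleDigits

open Finset Pool.Agent.Q163.LZ

/-- See the claim file. -/
theorem result (r : ℕ) (hr : 2 ≤ r) (x : ℝ) (hx : IsAlgebraic ℚ x) (hirr : Irrational x)
    (B : ℕ) :
    (∀ A : ℕ, ∃ γ : ℝ, 0 < γ ∧ ∃ N₀ : ℕ, ∀ c : ℕ → ℤ, (∀ n, 1 ≤ n → |c n| ≤ B) →
      HasSum (fun n : ℕ => (c n : ℝ) / (r : ℝ) ^ n) x → ∀ N ≥ N₀, ∀ (u : ℕ → ℝ) (F : Finset ℕ),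
      (F.card : ℝ) ≤ A * Real.log N → Described A γ N F u →
      A * Real.log N ≤ (((Icc 1 N).filter fun n => (c n : ℝ) ≠ u n).card : ℝ)) ∧
    (∀ A : ℕ, ∃ N₀ : ℕ, ∀ c : ℕ → ℤ, (∀ n, 1 ≤ n → |c n| ≤ B) →
      HasSum (fun n : ℕ => (c n : ℝ) / (r : ℝ) ^ n) x → ∀ N ≥ N₀, ∀ F : Finset ℕ, 1 ∈ F →
      (∀ e ∈ F, e ≤ N → (e + 1 ∈ F ∨ e = N) ∨ ∃ h, 1 ≤ h ∧ h < e ∧
        ∀ n, e ≤ n → n ≤ N → (∀ g ∈ F, g ≤ e ∨ n < g) → c n = c (n - h)) →
      A * Real.log N < F.card) ∧
    (∀ (k : ℕ) (u : ℕ → ℝ), 2 ≤ k → Automatic k u → ∀ A : ℕ, ∃ N₀ : ℕ, ∀ c : ℕ → ℤ,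
      (∀ n, 1 ≤ n → |c n| ≤ B) → HasSum (fun n : ℕ => (c n : ℝ) / (r : ℝ) ^ n) x →
      ∀ N ≥ N₀, A * Real.log N ≤ (((Icc 1 N).filter fun n => (c n : ℝ) ≠ u n).card : ℝ)) := by
  refine ⟨fun A => main r hr x hx hirr A B, fun A => ?_, fun k u hk hu A => ?_⟩
  · obtain ⟨γ, hγ, N₀, H⟩ := main r hr x hx hirr (A + 1) B
    refine ⟨max N₀ 2, fun c hcB hsum N hN F hF1 hF => ?_⟩
    have hN2 : 2 ≤ N := le_trans (le_max_right _ _) hN
    have hlog : 0 < Real.log N := Real.log_pos (by exact_mod_cast (by omega : 1 < N))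
    by_contra hcon
    push Not at hcon
    have h1 : (F.card : ℝ) ≤ ((A + 1 : ℕ) : ℝ) * Real.log N := by
      push_cast
      nlinarith
    have h2 : Described (A + 1) γ N F (fun n => (c n : ℝ)) := by
      refine ⟨hF1, fun e he => ?_⟩
      have hA : (0 : ℝ) ≤ ((A + 1 : ℕ) : ℝ) := Nat.cast_nonneg _
      have hA1 : (1 : ℝ) ≤ ((A + 1 : ℕ) : ℝ) := by push_cast; linarith [Nat.cast_nonneg (α := ℝ) A]
      have hge : 0 ≤ γ * e := by positivity
      rcases Nat.lt_or_ge N e with h3 | h3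
      · refine ⟨0, 0, Fin.elim0, Fin.elim0, Fin.elim0, Fin.elim0, Nat.zero_le _, Nat.zero_le _,
          fun i => i.elim0, fun i => i.elim0, fun i => i.elim0, ?_, fun i => i.elim0, ?_⟩
        · simp only [univ_eq_empty, sum_empty, Nat.cast_zero]
          linarith
        · intro n hn1 hn2
          omega
      · rcases hF e he h3 with h4 | ⟨h, h5, h6, h7⟩
        · refine ⟨0, 1, Fin.elim0, Fin.elim0, fun _ => 1, fun _ _ => (c e : ℝ), Nat.zero_le _,
            by omega, fun i => i.elim0, fun i => i.elim0, fun _ => Nat.one_pos, ?_,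
            fun _ _ => rfl, ?_⟩
          · simp only [univ_unique, sum_const, card_singleton, one_smul, Nat.cast_one]
            linarith
          · intro n hn1 hn2 hn3
            have h8 : n = e := by
              rcases h4 with h4 | h4
              · rcases hn3 _ h4 with h | h <;> omega
              · omega
            subst h8
            simp
        · refine ⟨1, 0, fun _ => h, fun _ => 1, Fin.elim0, Fin.elim0, by omega, Nat.zero_le _,
            fun a b _ => Subsingleton.elim a b, fun _ => ⟨h5, h6⟩, fun i => i.elim0, ?_,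
            fun i => i.elim0, ?_⟩
          · simp only [univ_eq_empty, sum_empty, Nat.cast_zero]
            linarith
          · intro n hn1 hn2 hn3
            simp [h7 n hn1 hn2 hn3]
    have h3 := H c hcB hsum N (le_trans (le_max_left _ _) hN) _ F h1 h2
    simp only [ne_eq, not_true_eq_false, filter_false, card_empty, Nat.cast_zero] at h3
    have h4 : (0 : ℝ) < ((A + 1 : ℕ) : ℝ) * Real.log N := by positivity
    linarith
  · obtain ⟨A₀, HA⟩ := automatic_described hk hu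
    obtain ⟨γ, hγ, N₀, H⟩ := main r hr x hx hirr (max A A₀) B
    refine ⟨max N₀ 3, fun c hcB hsum N hN => ?_⟩
    have hN3 : 3 ≤ N := le_trans (le_max_right _ _) hN
    obtain ⟨F, hF1, hF2⟩ := HA (max A A₀) (le_max_right _ _) γ hγ.le N hN3
    have h1 := H c hcB hsum N (le_trans (le_max_left _ _) hN) u F hF1 hF2
    refine le_trans ?_ h1
    have hlog : 0 ≤ Real.log N := Real.log_natCast_nonneg N
    exact mul_le_mul_of_nonneg_right (by exact_mod_cast le_max_left A A₀) hlog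

end Pool.Agent.Results.MP_f2f914_nt.IncompressibleDigits
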